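import Pool.Agent.Helper28.LV.StN

/-!
# Project LV, module CA2: gluing along the real axis (Morera)
-/

set_option autoImplicit false

namespace Pool.Agent.Helper97.LV

open Pool.Agent.Helper28.WK Pool.Agent.Helper28.LV
open MeasureTheory Set Complex
open scoped Interval

/-- rectangles whose interior does not meet the real axis -/
private theorem bd0 (f : ℂ → ℂ) (a b c d : ℝ) (Hc : ContinuousOn f ([[a, b]] ×ℂ [[c, d]]))
    (Hd : ∀ x ∈ ([[a, b]] ×ℂ [[c, d]] : Set ℂ), x.im ≠ 0 → DifferentiableAt ℂ f x)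
    (h0 : (0 : ℝ) ∉ Ioo (min c d) (max c d)) :
    (∫ x : ℝ in a..b, f (x + c * I)) - (∫ x : ℝ in a..b, f (x + d * I)) +
      I • (∫ y : ℝ in c..d, f (b + y * I)) - I • (∫ y : ℝ in c..d, f (a + y * I)) = 0 := by
  have ra : ((a : ℂ) + c * I).re = a := by simp
  have rb : ((b : ℂ) + d * I).re = b := by simp
  have ia : ((a : ℂ) + c * I).im = c := by simp
  have ib : ((b : ℂ) + d * I).im = d := by simp
  have h := integral_boundary_rect_eq_zero_of_differentiable_on_off_countable f ((a : ℂ) + c * I)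
    ((b : ℂ) + d * I) ∅ countable_empty
  rw [ra, rb, ia, ib] at h
  refine h Hc fun x hx => ?_
  obtain ⟨hx1, hx2⟩ := hx.1
  have hx1' : x.re ∈ Ioo (min a b) (max a b) := hx1
  have hx2' : x.im ∈ Ioo (min c d) (max c d) := hx2
  refine Hd x ⟨Ioo_subset_Icc_self hx1', Ioo_subset_Icc_self hx2'⟩ fun e => h0 ?_
  rw [← e]
  exact hx2'

/-- all rectangles -/
private theorem bd (f : ℂ → ℂ) (a b c d : ℝ) (Hc : ContinuousOn f ([[a, b]] ×ℂ [[c, d]]))
    (Hd : ∀ x ∈ ([[a, b]] ×ℂ [[c, d]] : Set ℂ), x.im ≠ 0 → DifferentiableAt ℂ f x) :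
    (∫ x : ℝ in a..b, f (x + c * I)) - (∫ x : ℝ in a..b, f (x + d * I)) +
      I • (∫ y : ℝ in c..d, f (b + y * I)) - I • (∫ y : ℝ in c..d, f (a + y * I)) = 0 := by
  by_cases h0 : (0 : ℝ) ∈ Ioo (min c d) (max c d)
  · have m0 : (0 : ℝ) ∈ [[c, d]] := Ioo_subset_Icc_self h0
    have s1 : [[c, (0 : ℝ)]] ⊆ [[c, d]] := uIcc_subset_uIcc left_mem_uIcc m0
    have s2 : [[(0 : ℝ), d]] ⊆ [[c, d]] := uIcc_subset_uIcc m0 right_mem_uIcc
    have r1 : ([[a, b]] ×ℂ [[c, (0 : ℝ)]] : Set ℂ) ⊆ [[a, b]] ×ℂ [[c, d]] := fun x hx => ⟨hx.1, s1 hx.2⟩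
    have r2 : ([[a, b]] ×ℂ [[(0 : ℝ), d]] : Set ℂ) ⊆ [[a, b]] ×ℂ [[c, d]] := fun x hx => ⟨hx.1, s2 hx.2⟩
    have n1 : (0 : ℝ) ∉ Ioo (min c 0) (max c 0) := by
      rintro ⟨h1, h2⟩
      rcases le_total c 0 with h | h
      · rw [max_eq_right h] at h2
        exact lt_irrefl _ h2
      · rw [min_eq_right h] at h1
        exact lt_irrefl _ h1
    have n2 : (0 : ℝ) ∉ Ioo (min 0 d) (max 0 d) := by
      rintro ⟨h1, h2⟩
      rcases le_total 0 d with h | h
      · rw [min_eq_left h] at h1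
        exact lt_irrefl _ h1
      · rw [max_eq_left h] at h2
        exact lt_irrefl _ h2
    have e1 := bd0 f a b c 0 (Hc.mono r1) (fun x hx => Hd x (r1 hx)) n1
    have e2 := bd0 f a b 0 d (Hc.mono r2) (fun x hx => Hd x (r2 hx)) n2
    have cv : ∀ t ∈ [[a, b]], ContinuousOn (fun y : ℝ => f (t + y * I)) [[c, d]] := by
      intro t ht
      refine Hc.comp (by fun_prop) fun y hy => ?_
      refine ⟨?_, ?_⟩
      · show ((t : ℂ) + y * I).re ∈ [[a, b]]
        simpa using ht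
      · show ((t : ℂ) + y * I).im ∈ [[c, d]]
        simpa using hy
    have i1 : ∀ t ∈ [[a, b]], (∫ y : ℝ in c..d, f (t + y * I)) =
        (∫ y : ℝ in c..0, f (t + y * I)) + ∫ y : ℝ in (0 : ℝ)..d, f (t + y * I) := fun t ht =>
      (intervalIntegral.integral_add_adjacent_intervals ((cv t ht).mono s1).intervalIntegrable
        ((cv t ht).mono s2).intervalIntegrable).symm
    rw [i1 b right_mem_uIcc, i1 a left_mem_uIcc, smul_add, smul_add]
    linear_combination e1 + e2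
  · exact bd0 f a b c d Hc Hd h0

/-- CA2: gluing along the real axis -/
theorem hCA2 : CA2 := by
  intro U f hU hc hd z hz
  obtain ⟨r, hr, hb⟩ := Metric.isOpen_iff.1 hU z hz
  have hcb : ContinuousOn f (Metric.ball z r) := hc.mono hb
  have cons : IsConservativeOn f (Metric.ball z r) := by
    intro p w hpw
    rw [← add_eq_zero_iff_eq_neg, wedgeIntegral_add_wedgeIntegral_eq]
    exact bd f p.re w.re p.im w.im (hcb.mono hpw) fun x hx hx0 => hd x (hb (hpw hx)) hx0
  have ex := cons.isExactOn_ball hcb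
  have dz := ex.differentiableOn Metric.isOpen_ball
  exact ((dz z (Metric.mem_ball_self hr)).differentiableAt (Metric.ball_mem_nhds z hr)).differentiableWithinAt

end Pool.Agent.Helper97.LV
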